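import Mathlib

/-!
Linear algebra: a feedback functional for the diagonal system with distinct exponents.
-/

set_option autoImplicit false

open Finset Polynomial

namespace Pool.Agent.KS6_23.AC

/-- control data for the exponents `α` -/
structure Ctl {d m : ℕ} (α w : Fin d → ℝ) (μ : Fin m → ℝ) (g : Fin m → Fin d → ℝ) : Prop where
  sum_w : ∑ i, w i = 1
  sum_g : ∀ j, ∑ i, g j i = 0
  rel : ∀ j i, α i * g j i = w i + μ j * g j i
  mu : ∀ j, μ j ≤ -1
  inj : ∀ E : Fin d → ℝ, ∑ i, w i * E i = 0 → (∀ j, ∑ i, g j i * E i = 0) → E = 0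

lemma bary {d : ℕ} {α : Fin d → ℝ} (hinj : Function.Injective α) {P : ℝ[X]}
    (hP : P.degree < (d : ℕ)) {x : ℝ} (hx : ∀ i, x ≠ α i) :
    P.eval x = (Lagrange.nodal univ α).eval x *
      ∑ i, Lagrange.nodalWeight univ α i * (x - α i)⁻¹ * P.eval (α i) := by
  have hvs : Set.InjOn α (univ : Finset (Fin d)) := hinj.injOn
  have h1 := Lagrange.eval_interpolate_not_at_node (s := univ) (v := α)
    (fun i => P.eval (α i)) (x := x) (fun i _ => hx i)
  rw [← Lagrange.eq_interpolate hvs (by simpa using hP)] at h1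
  exact h1

lemma coeff_sum {d : ℕ} {α : Fin d → ℝ} (hinj : Function.Injective α) {P : ℝ[X]}
    (hP : P.degree < (d : ℕ)) :
    P.coeff (d - 1) = ∑ i, Lagrange.nodalWeight univ α i * P.eval (α i) := by
  have hvs : Set.InjOn α (univ : Finset (Fin d)) := hinj.injOn
  have h1 := Lagrange.coeff_eq_sum hvs (P := P) (by simpa using hP)
  rw [Finset.card_univ, Fintype.card_fin] at h1
  rw [h1]
  apply Finset.sum_congr rfl
  intro i _
  rw [Lagrange.nodalWeight, Finset.prod_inv_distrib]
  ring

theorem exists_ctl {d : ℕ} (hd : 0 < d) {α : Fin d → ℝ} (hinj : Function.Injective α)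
    (hpos : ∀ i, 0 < α i) : ∃ (m : ℕ) (w : Fin d → ℝ) (μ : Fin m → ℝ) (g : Fin m → Fin d → ℝ),
    Ctl α w μ g := by
  set μ : Fin (d - 1) → ℝ := fun j => -((j : ℝ) + 1) with hμ
  have hμinj : Function.Injective μ := by
    intro a b hab
    have h1 : (a : ℝ) = (b : ℝ) := by
      simp only [hμ] at hab
      linarith
    apply Fin.ext
    exact_mod_cast h1
  set Q : ℝ[X] := Lagrange.nodal univ μ with hQ
  have hQd : Q.degree = ((d - 1 : ℕ) : WithBot ℕ) := by
    rw [hQ, Lagrange.degree_nodal, Finset.card_univ, Fintype.card_fin]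
  have hQn : Q.natDegree = d - 1 := by
    rw [hQ, Lagrange.natDegree_nodal, Finset.card_univ, Fintype.card_fin]
  have hQlt : Q.degree < (d : ℕ) := by
    rw [hQd]
    exact_mod_cast (by omega : d - 1 < d)
  have hQpos : ∀ i, 0 < Q.eval (α i) := by
    intro i
    rw [hQ, Lagrange.eval_nodal]
    apply Finset.prod_pos
    intro j _
    have := hpos i
    simp only [hμ]
    have hj : (0 : ℝ) ≤ (j : ℝ) := by positivity
    linarith
  have hne : ∀ j i, μ j ≠ α i := by
    intro j i h
    have := hpos i
    have hj : (0 : ℝ) ≤ (j : ℝ) := by positivity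
    simp only [hμ] at h
    linarith
  set nw : Fin d → ℝ := fun i => Lagrange.nodalWeight univ α i with hnw
  have hnw0 : ∀ i, nw i ≠ 0 := fun i =>
    Lagrange.nodalWeight_ne_zero (hinj.injOn) (mem_univ i)
  refine ⟨d - 1, fun i => nw i * Q.eval (α i), μ, fun j i => nw i * Q.eval (α i) / (α i - μ j),
    ?_, ?_, ?_, ?_, ?_⟩
  · rw [← coeff_sum hinj hQlt]
    have h1 : Q.coeff (d - 1) = Q.leadingCoeff := by rw [leadingCoeff, hQn]
    rw [h1, hQ]
    exact Lagrange.nodal_monic
  · intro j
    have h1 := bary hinj hQlt (hne j)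
    have h2 : Q.eval (μ j) = 0 := by
      rw [hQ]; exact Lagrange.eval_nodal_at_node (mem_univ j)
    rw [h2] at h1
    have h3 : (Lagrange.nodal univ α).eval (μ j) ≠ 0 := by
      rw [Lagrange.eval_nodal]
      apply Finset.prod_ne_zero_iff.2
      intro i _
      exact sub_ne_zero.2 (hne j i)
    have h4 := (mul_eq_zero.1 h1.symm).resolve_left h3
    have h5 : ∑ i, nw i * Q.eval (α i) / (α i - μ j)
        = -∑ i, Lagrange.nodalWeight univ α i * (μ j - α i)⁻¹ * Q.eval (α i) := by
      rw [← Finset.sum_neg_distrib]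
      apply Finset.sum_congr rfl
      intro i _
      have h6 : μ j - α i ≠ 0 := sub_ne_zero.2 (hne j i)
      have h7 : α i - μ j ≠ 0 := sub_ne_zero.2 (hne j i).symm
      simp only [hnw]
      rw [← neg_sub (α i) (μ j), inv_neg]
      field_simp
    rw [h5, h4, neg_zero]
  · intro j i
    have h7 : α i - μ j ≠ 0 := sub_ne_zero.2 (hne j i).symm
    field_simp
    ring
  · intro j
    have hj : (0 : ℝ) ≤ (j : ℝ) := by positivity
    simp only [hμ]
    linarith
  · intro E h0 hj
    have hvs : Set.InjOn α (univ : Finset (Fin d)) := hinj.injOn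
    set H : ℝ[X] := Lagrange.interpolate univ α (fun i => Q.eval (α i) * E i) with hH
    have hHd : H.degree < (d : ℕ) := by
      have := Lagrange.degree_interpolate_lt (s := univ) (v := α)
        (fun i => Q.eval (α i) * E i) hvs
      rw [Finset.card_univ, Fintype.card_fin] at this
      exact this
    have hHe : ∀ i, H.eval (α i) = Q.eval (α i) * E i := fun i =>
      Lagrange.eval_interpolate_at_node _ hvs (mem_univ i)
    have hc : H.coeff (d - 1) = 0 := by
      rw [coeff_sum hinj hHd, ← h0]
      apply Finset.sum_congr rfl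
      intro i _
      rw [hHe]
      simp only [hnw]
      ring
    have hHd2 : H.degree < ((d - 1 : ℕ) : WithBot ℕ) := by
      rw [Polynomial.degree_lt_iff_coeff_zero]
      intro n hn
      rcases eq_or_lt_of_le hn with h | h
      · rw [← h]; exact hc
      · apply Polynomial.coeff_eq_zero_of_degree_lt
        refine lt_of_lt_of_le hHd ?_
        exact_mod_cast (by omega : d ≤ n)
    have hroot : ∀ j, H.eval (μ j) = 0 := by
      intro j
      rw [bary hinj hHd (hne j)]
      have h5 : ∑ i, Lagrange.nodalWeight univ α i * (μ j - α i)⁻¹ * H.eval (α i)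
          = -∑ i, nw i * Q.eval (α i) / (α i - μ j) * E i := by
        rw [← Finset.sum_neg_distrib]
        apply Finset.sum_congr rfl
        intro i _
        have h6 : μ j - α i ≠ 0 := sub_ne_zero.2 (hne j i)
        have h7 : α i - μ j ≠ 0 := sub_ne_zero.2 (hne j i).symm
        rw [hHe]
        simp only [hnw]
        rw [← neg_sub (α i) (μ j), inv_neg]
        field_simp
      rw [h5, hj j]
      ring
    have hH0 : H = 0 := by
      apply Polynomial.eq_zero_of_degree_lt_of_eval_index_eq_zero (s := (univ : Finset (Fin (d - 1))))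
        (v := μ) (hμinj.injOn)
      · simpa using hHd2
      · intro i _
        exact hroot i
    funext i
    have h1 := hHe i
    rw [hH0, Polynomial.eval_zero] at h1
    have h2 := (mul_eq_zero.1 h1.symm).resolve_left (hQpos i).ne'
    simpa using h2

end Pool.Agent.KS6_23.AC
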