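import Mathlib

/-!
The scalar dynamics of the feedback.
-/

set_option autoImplicit false

namespace Pool.Agent.KS6_23.AC

/-- one double step for the controlled functional -/
lemma two_step {s s1 s2 t t1 : ℝ}
    (h0 : (0 < s → t = s - 1) ∧ (¬ 0 < s → t = s)) (h1 : |s1 - t| ≤ 1 / 8)
    (h2 : (s1 < 0 → t1 = s1 + 1) ∧ (¬ s1 < 0 → t1 = s1)) (h3 : |s2 - t1| ≤ 1 / 8) :
    |s2| ≤ max |s| 3 ∧ |s1| ≤ |s| + 2 := by
  have a1 := abs_le.1 h1
  have a3 := abs_le.1 h3
  have hm1 : |s| ≤ max |s| 3 := le_max_left _ _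
  have hm2 : (3:ℝ) ≤ max |s| 3 := le_max_right _ _
  have b1 := neg_abs_le s
  have b2 := le_abs_self s
  rcases lt_or_ge 0 s with hs | hs
  · have ht := h0.1 hs
    rw [abs_of_pos hs] at hm1 hm2 b1 b2 ⊢
    rcases lt_or_ge s1 0 with hs1 | hs1
    · have ht1 := h2.1 hs1
      constructor
      · rw [abs_le]; constructor <;> linarith
      · rw [abs_le]; constructor <;> linarith
    · have ht1 := h2.2 (not_lt.2 hs1)
      constructor
      · rw [abs_le]; constructor <;> linarith
      · rw [abs_le]; constructor <;> linarith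
  · have ht := h0.2 (not_lt.2 hs)
    rw [abs_of_nonpos hs] at hm1 hm2 b1 b2 ⊢
    rcases lt_or_ge s1 0 with hs1 | hs1
    · have ht1 := h2.1 hs1
      constructor
      · rw [abs_le]; constructor <;> linarith
      · rw [abs_le]; constructor <;> linarith
    · have ht1 := h2.2 (not_lt.2 hs1)
      constructor
      · rw [abs_le]; constructor <;> linarith
      · rw [abs_le]; constructor <;> linarith

/-- boundedness of the scalar system -/
theorem dyn {C : ℝ} (hC : 1 ≤ C) : ∃ δ : ℝ, 0 < δ ∧ ∃ N : ℕ, ∀ n0 : ℕ, N ≤ n0 → Even n0 →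
    ∀ S T G : ℕ → ℝ, (∀ n, 0 ≤ G n) →
    (∀ n, n0 ≤ n → Even n → ((0 < S n → T n = S n - 1) ∧ (¬ 0 < S n → T n = S n))) →
    (∀ n, n0 ≤ n → ¬ Even n → ((S n < 0 → T n = S n + 1) ∧ (¬ S n < 0 → T n = S n))) →
    (∀ n, n0 ≤ n → |S (n + 1) - T n| ≤ C * (|S n| + G n + 1) / n) →
    (∀ n, n0 ≤ n → G (n + 1) ≤ (1 - 1 / n) * G n + C * |T n| / n
      + C * (|S n| + G n + 1) / n ^ 2) →
    |S n0| + G n0 ≤ δ * n0 → ∃ B : ℝ, ∀ n, n0 ≤ n → |S n| ≤ B ∧ G n ≤ B := by
  set δ : ℝ := 1 / (16 * C * (2 + C)) with hδ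
  have hC0 : 0 < C := by linarith
  have hδ0 : 0 < δ := by positivity
  obtain ⟨N, hN⟩ := exists_nat_gt (16 * C * (7 + 7 * C))
  refine ⟨δ, hδ0, max N 1, ?_⟩
  intro n0 hn0 he S T G hG hev hod hS hGs hinit
  have hn01 : 1 ≤ n0 := le_trans (le_max_right _ _) hn0
  have hn0N : (N:ℝ) ≤ n0 := by exact_mod_cast le_trans (le_max_left _ _) hn0
  have hn0r : (1:ℝ) ≤ n0 := by exact_mod_cast hn01
  set B : ℝ := max |S n0| 3 + 2 with hB
  set Γ : ℝ := max (G n0) (C * (B + 1) + 1) with hΓ
  have hS0 : |S n0| ≤ δ * n0 := by linarith [hG n0]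
  have hG0 : G n0 ≤ δ * n0 := by linarith [abs_nonneg (S n0)]
  have hδn : 0 ≤ δ * n0 := by positivity
  have hBle : B ≤ δ * n0 + 5 := by
    have : max |S n0| 3 ≤ δ * n0 + 3 := max_le (by linarith) (by linarith)
    linarith
  have hB0 : 0 ≤ B := by
    have : (3:ℝ) ≤ max |S n0| 3 := le_max_right _ _
    linarith
  have hΓle : Γ ≤ δ * n0 + C * (δ * n0 + 6) + 1 := by
    apply max_le
    · nlinarith
    · nlinarith
  have hΓ0 : 0 ≤ Γ := le_trans (hG n0) (le_max_left _ _)
  -- smallness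
  have hsm : C * (B + Γ + 1) ≤ n0 / 8 := by
    have h1 : B + Γ + 1 ≤ (2 + C) * (δ * n0) + (7 + 6 * C) := by nlinarith
    have h2 : C * (B + Γ + 1) ≤ C * ((2 + C) * (δ * n0) + (7 + 6 * C)) :=
      mul_le_mul_of_nonneg_left h1 hC0.le
    have h3 : C * ((2 + C) * (δ * n0)) = n0 / 16 := by
      rw [hδ]; field_simp
    have h4 : C * (7 + 6 * C) ≤ n0 / 16 := by nlinarith
    nlinarith
  have hsmn : ∀ n : ℕ, n0 ≤ n → |S n| ≤ B → G n ≤ Γ → C * (|S n| + G n + 1) / n ≤ 1 / 8 := by
    intro n hn h1 h2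
    have hnr : (n0:ℝ) ≤ n := by exact_mod_cast hn
    rw [div_le_iff₀ (by linarith)]
    have : C * (|S n| + G n + 1) ≤ C * (B + Γ + 1) :=
      mul_le_mul_of_nonneg_left (by linarith) hC0.le
    linarith
  have hT : ∀ n, n0 ≤ n → |T n| ≤ |S n| + 1 := by
    intro n hn
    by_cases hev' : Even n
    · have := hev n hn hev'
      by_cases h : 0 < S n
      · rw [this.1 h]
        have := abs_sub (S n) 1
        rw [abs_one] at this
        exact this
      · rw [this.2 h]; linarith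
    · have := hod n hn hev'
      by_cases h : S n < 0
      · rw [this.1 h]
        have := abs_add_le (S n) 1
        rw [abs_one] at this
        exact this
      · rw [this.2 h]; linarith
  have hGstep : ∀ n, n0 ≤ n → |S n| ≤ B → G n ≤ Γ → G (n + 1) ≤ Γ := by
    intro n hn h1 h2
    have hnr : (n0:ℝ) ≤ n := by exact_mod_cast hn
    have hn1 : (1:ℝ) ≤ n := by linarith
    have h3 := hGs n hn
    have h4 := hsmn n hn h1 h2
    have h5 : C * (|S n| + G n + 1) / (n:ℝ) ^ 2 ≤ 1 / n := by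
      have e : C * (|S n| + G n + 1) / (n:ℝ) ^ 2 = (C * (|S n| + G n + 1) / n) / n := by
        field_simp
      rw [e]
      apply div_le_div_of_nonneg_right _ (by linarith)
      linarith
    have h6 : C * |T n| / n ≤ C * (B + 1) / n := by
      apply div_le_div_of_nonneg_right _ (by linarith)
      apply mul_le_mul_of_nonneg_left _ hC0.le
      linarith [hT n hn]
    have h7 : (1 - 1 / (n:ℝ)) * G n ≤ (1 - 1 / n) * Γ := by
      apply mul_le_mul_of_nonneg_left h2
      have : 1 / (n:ℝ) ≤ 1 := by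
        rw [div_le_one (by linarith)]; exact hn1
      linarith
    have h8 : C * (B + 1) + 1 ≤ Γ := le_max_right _ _
    have h9 : (C * (B + 1) + 1) / n ≤ Γ / n := div_le_div_of_nonneg_right h8 (by linarith)
    have e2 : (C * (B + 1) + 1) / (n:ℝ) = C * (B + 1) / n + 1 / n := by ring
    have e3 : (1 - 1 / (n:ℝ)) * Γ + Γ / n = Γ := by ring
    linarith
  have key : ∀ k : ℕ, |S (n0 + 2 * k)| ≤ max |S n0| 3 ∧ G (n0 + 2 * k) ≤ Γ ∧
      |S (n0 + 2 * k + 1)| ≤ B ∧ G (n0 + 2 * k + 1) ≤ Γ := by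
    have hone : ∀ n, n0 ≤ n → Even n → |S n| ≤ max |S n0| 3 → G n ≤ Γ →
        |S (n + 1)| ≤ B ∧ G (n + 1) ≤ Γ := by
      intro n hn hen h1 h2
      have h1' : |S n| ≤ B := by linarith
      have h3 := hsmn n hn h1' h2
      have h4 := (hS n hn).trans h3
      have a4 := abs_le.1 h4
      have h5 : |T n| ≤ max |S n| 1 := by
        have := hev n hn hen
        by_cases h : 0 < S n
        · rw [this.1 h, abs_of_pos h, abs_le]
          have m1 : S n ≤ max (S n) 1 := le_max_left _ _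
          have m2 : (1:ℝ) ≤ max (S n) 1 := le_max_right _ _
          constructor <;> linarith
        · rw [this.2 h]; exact le_max_left _ _
      have h6 : |S (n + 1)| ≤ |T n| + 1 / 8 := by
        have := abs_add_le (S (n + 1) - T n) (T n)
        rw [sub_add_cancel] at this
        linarith
      refine ⟨?_, hGstep n hn h1' h2⟩
      have h7 : max |S n| 1 ≤ max |S n0| 3 := max_le h1 (by
        have : (3:ℝ) ≤ max |S n0| 3 := le_max_right _ _
        linarith)
      rw [hB]
      linarith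
    intro k
    induction k with
    | zero =>
      have h1 : |S n0| ≤ max |S n0| 3 := le_max_left _ _
      have h2 : G n0 ≤ Γ := le_max_left _ _
      have h3 := hone n0 le_rfl he h1 h2
      exact ⟨by simp, by simpa using h2, by simpa using h3.1, by simpa using h3.2⟩
    | succ k ih =>
      obtain ⟨i1, i2, i3, i4⟩ := ih
      have hn : n0 ≤ n0 + 2 * k := by omega
      have hen : Even (n0 + 2 * k) := he.add (even_two_mul k)
      have hno : ¬ Even (n0 + 2 * k + 1) := by
        rw [Nat.even_add_one]; exact not_not.2 hen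
      have i1' : |S (n0 + 2 * k)| ≤ B := by linarith
      have h4 := (hS _ hn).trans (hsmn _ hn i1' i2)
      have h5 := (hS (n0 + 2 * k + 1) (by omega)).trans (hsmn _ (by omega) i3 i4)
      have h6 := (two_step (hev _ hn hen) h4 (hod _ (by omega) hno) h5).1
      have h7 := hGstep _ (by omega) i3 i4
      have e : n0 + 2 * (k + 1) = n0 + 2 * k + 1 + 1 := by ring
      rw [e]
      have h8 : |S (n0 + 2 * k + 1 + 1)| ≤ max |S n0| 3 := h6.trans (max_le i1 (le_max_right _ _))
      have h9 := hone (n0 + 2 * k + 1 + 1) (by omega) (by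
        rw [show n0 + 2 * k + 1 + 1 = n0 + 2 * (k + 1) by ring]
        exact he.add (even_two_mul _)) h8 h7
      exact ⟨h8, h7, h9.1, h9.2⟩
  refine ⟨max B Γ, fun n hn => ?_⟩
  obtain ⟨k, hk | hk⟩ : ∃ k, n = n0 + 2 * k ∨ n = n0 + 2 * k + 1 := by
    obtain ⟨r, rfl⟩ := Nat.exists_eq_add_of_le hn
    rcases Nat.even_or_odd' r with ⟨k, h | h⟩
    · exact ⟨k, Or.inl (by rw [h])⟩
    · exact ⟨k, Or.inr (by rw [h]; ring)⟩
  · rw [hk]
    have := key k
    constructor
    · have h1 : |S (n0 + 2 * k)| ≤ B := by linarith [this.1]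
      exact h1.trans (le_max_left _ _)
    · exact this.2.1.trans (le_max_right _ _)
  · rw [hk]
    have := key k
    exact ⟨this.2.2.1.trans (le_max_left _ _), this.2.2.2.trans (le_max_right _ _)⟩

end Pool.Agent.KS6_23.AC
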