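import Pool.Agent.KS6_23.AC.Alg
import Pool.Agent.KS6_23.AC.Dyn

/-!
Estimates for the feedback in the scaled variables.
-/

set_option autoImplicit false

open Finset Filter Topology

namespace Pool.Agent.KS6_23.AC

lemma pow_upper {a x : ℝ} (ha0 : 0 ≤ a) (ha1 : a ≤ 1) (hx : 0 ≤ x) : (1 + x) ^ a ≤ 1 + a * x := by
  rcases eq_or_lt_of_le ha0 with h | h
  · rw [← h]; simp
  · have := rpow_one_add_le_one_add_mul_self (by linarith : -1 ≤ x) h.le ha1
    exact this

lemma pow_lower {a x : ℝ} (ha0 : 0 ≤ a) (ha1 : a ≤ 1) (hx : 0 ≤ x) :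
    1 + a * x - x ^ 2 ≤ (1 + x) ^ a := by
  have h1 : (1 + x) ^ (1 - a) ≤ 1 + (1 - a) * x := pow_upper (by linarith) (by linarith) hx
  have h2 : (1 + x) ^ a * (1 + x) ^ (1 - a) = 1 + x := by
    rw [← Real.rpow_add (by linarith)]
    simp
  have h3 : 0 < (1 + x) ^ a := Real.rpow_pos_of_pos (by linarith) _
  have h4 : 0 < 1 + (1 - a) * x := by nlinarith
  have h5 : 1 + x ≤ (1 + x) ^ a * (1 + (1 - a) * x) :=
    h2.symm.le.trans (mul_le_mul_of_nonneg_left h1 h3.le)
  by_contra hc
  push Not at hc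
  have h6 : (1 + x) ^ a * (1 + (1 - a) * x) < (1 + a * x - x ^ 2) * (1 + (1 - a) * x) :=
    mul_lt_mul_of_pos_right hc h4
  have h7 : (1 + a * x - x ^ 2) * (1 + (1 - a) * x) ≤ 1 + x := by
    have : 1 + x - (1 + a * x - x ^ 2) * (1 + (1 - a) * x)
        = x ^ 2 * (1 - a * (1 - a)) + x ^ 3 * (1 - a) := by ring
    have h8 : 0 ≤ x ^ 2 * (1 - a * (1 - a)) := by
      apply mul_nonneg (by positivity)
      nlinarith
    have h9 : 0 ≤ x ^ 3 * (1 - a) := mul_nonneg (by positivity) (by linarith)
    linarith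
  linarith

variable {d m : ℕ} {α w : Fin d → ℝ} {μ : Fin m → ℝ} {g : Fin m → Fin d → ℝ}

/-- the functional `S` -/
noncomputable def SS (w E : Fin d → ℝ) : ℝ := ∑ i, w i * E i

/-- the functional `G` -/
noncomputable def GG (g : Fin m → Fin d → ℝ) (E : Fin d → ℝ) : ℝ := ∑ j, |∑ i, g j i * E i|

lemma GG_nonneg (g : Fin m → Fin d → ℝ) (E : Fin d → ℝ) : 0 ≤ GG g E :=
  Finset.sum_nonneg fun _ _ => abs_nonneg _

lemma exists_K (h : Ctl α w μ g) : ∃ K : ℝ, 0 < K ∧ ∀ E : Fin d → ℝ,
    ∑ i, |E i| ≤ K * (|SS w E| + GG g E) := by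
  let L : (Fin d → ℝ) →ₗ[ℝ] (ℝ × (Fin m → ℝ)) :=
    { toFun := fun E => (∑ i, w i * E i, fun j => ∑ i, g j i * E i)
      map_add' := by
        intro x y
        ext
        · simp [mul_add, Finset.sum_add_distrib]
        · simp [mul_add, Finset.sum_add_distrib]
      map_smul' := by
        intro c x
        ext
        · simp only [Pi.smul_apply, smul_eq_mul, RingHom.id_apply, Prod.smul_mk]
          rw [Finset.mul_sum]
          apply Finset.sum_congr rfl
          intro i _
          ring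
        · simp only [Pi.smul_apply, smul_eq_mul, RingHom.id_apply, Prod.smul_mk]
          rw [Finset.mul_sum]
          apply Finset.sum_congr rfl
          intro i _
          ring }
  have hker : LinearMap.ker L = ⊥ := by
    rw [LinearMap.ker_eq_bot']
    intro E hE
    have h1 : (∑ i, w i * E i, fun j => ∑ i, g j i * E i) = ((0 : ℝ), (0 : Fin m → ℝ)) := hE
    have h2 := (Prod.mk.inj h1)
    exact h.inj E h2.1 (fun j => congrFun h2.2 j)
  obtain ⟨K, hK, hL⟩ := L.exists_antilipschitzWith hker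
  refine ⟨(d + 1) * K, by positivity, fun E => ?_⟩
  have h1 : ‖E‖ ≤ K * ‖L E‖ := by
    have := hL.le_mul_dist E 0
    rw [map_zero, dist_zero_right, dist_zero_right] at this
    exact this
  have h2 : ‖L E‖ ≤ |SS w E| + GG g E := by
    have h3 : L E = (SS w E, fun j => ∑ i, g j i * E i) := rfl
    rw [h3, Prod.norm_def]
    apply max_le
    · simp only [Real.norm_eq_abs]
      linarith [GG_nonneg g E]
    · simp only
      have h4 : ‖fun j => ∑ i, g j i * E i‖ ≤ GG g E := by
        apply (pi_norm_le_iff_of_nonneg (GG_nonneg g E)).2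
        intro j
        rw [Real.norm_eq_abs]
        exact Finset.single_le_sum (f := fun j => |∑ i, g j i * E i|)
          (fun _ _ => abs_nonneg _) (Finset.mem_univ j)
      linarith [abs_nonneg (SS w E)]
  have h5 : ∑ i, |E i| ≤ d * ‖E‖ := by
    calc ∑ i, |E i| ≤ ∑ _i : Fin d, ‖E‖ := Finset.sum_le_sum fun i _ => norm_le_pi_norm E i
      _ = d * ‖E‖ := by simp
  have h6 : 0 ≤ |SS w E| + GG g E := by
    linarith [GG_nonneg g E, abs_nonneg (SS w E)]
  have hK0 : (0:ℝ) < K := by exact_mod_cast hK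
  calc ∑ i, |E i| ≤ d * ‖E‖ := h5
    _ ≤ d * (K * ‖L E‖) := by gcongr
    _ ≤ d * (K * (|SS w E| + GG g E)) := by gcongr
    _ ≤ (d + 1) * (K * (|SS w E| + GG g E)) := by
        apply mul_le_mul_of_nonneg_right _ (by positivity)
        linarith
    _ = _ := by ring

/-- the one-step estimates -/
theorem step_est (h : Ctl α w μ g) (hα0 : ∀ i, 0 < α i) (hα1 : ∀ i, α i ≤ 1) :
    ∃ C : ℝ, 1 ≤ C ∧ ∃ N : ℕ, ∀ n : ℕ, N ≤ n → ∀ (E : Fin d → ℝ) (c : ℝ), |c| ≤ 1 →
      ∀ E1 : Fin d → ℝ, (∀ i, E1 i = (1 + 1 / (n:ℝ)) ^ α i * (E i - c)) →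
      |SS w E1 - (SS w E - c)| ≤ C * (|SS w E| + GG g E + 1) / n ∧
      GG g E1 ≤ (1 - 1 / n) * GG g E + C * |SS w E - c| / n
        + C * (|SS w E| + GG g E + 1) / n ^ 2 := by
  obtain ⟨K, hK, hKE⟩ := exists_K h
  set W : ℝ := 1 + ∑ i, |w i| + ∑ j, ∑ i, |g j i| with hW
  have hsw : 0 ≤ ∑ i, |w i| := Finset.sum_nonneg fun _ _ => abs_nonneg _
  have hsg : 0 ≤ ∑ j, ∑ i, |g j i| :=
    Finset.sum_nonneg fun _ _ => Finset.sum_nonneg fun _ _ => abs_nonneg _
  have hW1 : 1 ≤ W := by linarith
  have hwW : ∀ i, |w i| ≤ W := by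
    intro i
    have := Finset.single_le_sum (f := fun i => |w i|) (fun _ _ => abs_nonneg _)
      (Finset.mem_univ i)
    linarith
  have hgW : ∀ j i, |g j i| ≤ W := by
    intro j i
    have h1 := Finset.single_le_sum (f := fun i => |g j i|) (fun _ _ => abs_nonneg _)
      (Finset.mem_univ i)
    have h2 := Finset.single_le_sum (f := fun j => ∑ i, |g j i|)
      (fun _ _ => Finset.sum_nonneg fun _ _ => abs_nonneg _) (Finset.mem_univ j)
    linarith
  obtain ⟨N, hN⟩ := exists_nat_gt (∑ j, |μ j|)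
  set C : ℝ := 1 + m + (m + 1) * W * (K + d) with hCdef
  have hC1 : 1 ≤ C := by
    have : 0 ≤ (m + 1) * W * (K + d) := by positivity
    have : (0:ℝ) ≤ m := by positivity
    linarith
  refine ⟨C, hC1, max N 1, ?_⟩
  intro n hn E c hc E1 hE1
  have hn1 : (1:ℝ) ≤ n := by exact_mod_cast le_trans (le_max_right _ _) hn
  have hn0 : (0:ℝ) < n := by linarith
  have hnN : (N:ℝ) ≤ n := by exact_mod_cast le_trans (le_max_left _ _) hn
  set X : ℝ := |SS w E| + GG g E + 1 with hX
  have hX1 : 1 ≤ X := by linarith [abs_nonneg (SS w E), GG_nonneg g E]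
  set Sg : ℝ := ∑ i, |E i - c| with hSg
  have hSgX : Sg ≤ (K + d) * X := by
    have h1 : Sg ≤ ∑ i, (|E i| + 1) := by
      apply Finset.sum_le_sum
      intro i _
      have := abs_sub (E i) c
      linarith
    rw [Finset.sum_add_distrib] at h1
    simp only [Finset.sum_const, Finset.card_univ, Fintype.card_fin, nsmul_eq_mul, mul_one] at h1
    have h2 := hKE E
    have h3 : K * (|SS w E| + GG g E) ≤ K * X := mul_le_mul_of_nonneg_left (by linarith) hK.le
    have h4 : (d:ℝ) ≤ d * X := by
      have : (0:ℝ) ≤ d := by positivity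
      nlinarith
    nlinarith
  have hSg0 : 0 ≤ Sg := Finset.sum_nonneg fun _ _ => abs_nonneg _
  set th : Fin d → ℝ := fun i => (1 + 1 / (n:ℝ)) ^ α i - 1 - α i / n with hth
  have hinv : 0 ≤ 1 / (n:ℝ) := by positivity
  have hthb : ∀ i, |th i| ≤ 1 / n ^ 2 := by
    intro i
    have h1 := pow_upper (hα0 i).le (hα1 i) hinv
    have h2 := pow_lower (hα0 i).le (hα1 i) hinv
    have e1 : α i * (1 / (n:ℝ)) = α i / n := by ring
    have e2 : (1 / (n:ℝ)) ^ 2 = 1 / n ^ 2 := by rw [div_pow, one_pow]
    rw [e1] at h1 h2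
    rw [e2] at h2
    have h3 : (0:ℝ) ≤ 1 / n ^ 2 := by positivity
    simp only [hth]
    rw [abs_le]
    constructor <;> linarith
  have hfac : ∀ i, |(1 + 1 / (n:ℝ)) ^ α i - 1| ≤ 1 / n := by
    intro i
    have h1 := pow_upper (hα0 i).le (hα1 i) hinv
    have h2 : 1 ≤ (1 + 1 / (n:ℝ)) ^ α i := Real.one_le_rpow (by linarith) (hα0 i).le
    have h3 : α i * (1 / (n:ℝ)) ≤ 1 * (1 / n) := mul_le_mul_of_nonneg_right (hα1 i) hinv
    rw [abs_of_nonneg (by linarith)]
    linarith
  have hSc : SS w E - c = ∑ i, w i * (E i - c) := by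
    rw [SS]
    simp only [mul_sub, Finset.sum_sub_distrib]
    rw [← Finset.sum_mul, h.sum_w, one_mul]
  constructor
  · have e : SS w E1 - (SS w E - c) = ∑ i, w i * (((1 + 1 / (n:ℝ)) ^ α i - 1) * (E i - c)) := by
      rw [hSc, SS, ← Finset.sum_sub_distrib]
      apply Finset.sum_congr rfl
      intro i _
      rw [hE1]; ring
    rw [e]
    calc |∑ i, w i * (((1 + 1 / (n:ℝ)) ^ α i - 1) * (E i - c))|
        ≤ ∑ i, |w i * (((1 + 1 / (n:ℝ)) ^ α i - 1) * (E i - c))| := Finset.abs_sum_le_sum_abs _ _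
      _ ≤ ∑ i, W * (1 / n) * |E i - c| := by
          apply Finset.sum_le_sum
          intro i _
          rw [abs_mul, abs_mul, ← mul_assoc]
          apply mul_le_mul_of_nonneg_right _ (abs_nonneg _)
          exact mul_le_mul (hwW i) (hfac i) (abs_nonneg _) (by linarith)
      _ = W * Sg / n := by rw [← Finset.mul_sum]; ring
      _ ≤ C * X / n := by
          apply div_le_div_of_nonneg_right _ hn0.le
          calc W * Sg ≤ W * ((K + d) * X) := mul_le_mul_of_nonneg_left hSgX (by linarith)
            _ = (1 * W * (K + d)) * X := by ring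
            _ ≤ C * X := by
                apply mul_le_mul_of_nonneg_right _ (by linarith)
                have h1 : (0:ℝ) ≤ m := by positivity
                have h2 : 0 ≤ W * (K + d) := by positivity
                have h3 : (m + 1) * W * (K + d) = m * (W * (K + d)) + 1 * W * (K + d) := by ring
                have h4 : 0 ≤ (m:ℝ) * (W * (K + d)) := by positivity
                linarith
  · have hj : ∀ j, |∑ i, g j i * E1 i| ≤ (1 - 1 / n) * |∑ i, g j i * E i|
        + |SS w E - c| / n + W * Sg / n ^ 2 := by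
      intro j
      set γ : ℝ := ∑ i, g j i * E i with hγ
      have h1 : ∑ i, g j i * (E i - c) = γ := by
        simp only [mul_sub, Finset.sum_sub_distrib]
        rw [← Finset.sum_mul, h.sum_g, zero_mul, sub_zero]
      have h2 : ∑ i, α i * g j i * (E i - c) = (SS w E - c) + μ j * γ := by
        rw [hSc, ← h1, Finset.mul_sum, ← Finset.sum_add_distrib]
        apply Finset.sum_congr rfl
        intro i _
        rw [h.rel j i]; ring
      have e : ∑ i, g j i * E1 i = (1 + μ j / n) * γ + (SS w E - c) / n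
          + ∑ i, g j i * (th i * (E i - c)) := by
        have e1 : ∑ i, g j i * E1 i = ∑ i, g j i * (E i - c)
            + (∑ i, α i * g j i * (E i - c)) / n + ∑ i, g j i * (th i * (E i - c)) := by
          rw [Finset.sum_div, ← Finset.sum_add_distrib, ← Finset.sum_add_distrib]
          apply Finset.sum_congr rfl
          intro i _
          rw [hE1]
          simp only [hth]
          ring
        rw [e1, h1, h2]
        ring
      have hmu : |μ j| ≤ n := by
        have := Finset.single_le_sum (f := fun j => |μ j|) (fun _ _ => abs_nonneg _)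
          (Finset.mem_univ j)
        linarith
      have h3 : 0 ≤ 1 + μ j / n := by
        have : -1 ≤ μ j / n := by
          rw [le_div_iff₀ hn0]
          linarith [neg_abs_le (μ j)]
        linarith
      have h4 : 1 + μ j / n ≤ 1 - 1 / n := by
        have : μ j / n ≤ -1 / n := div_le_div_of_nonneg_right (h.mu j) hn0.le
        have e4 : (-1:ℝ) / n = -(1 / n) := by ring
        linarith
      have h5 : |∑ i, g j i * (th i * (E i - c))| ≤ W * Sg / n ^ 2 := by
        calc |∑ i, g j i * (th i * (E i - c))|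
            ≤ ∑ i, |g j i * (th i * (E i - c))| := Finset.abs_sum_le_sum_abs _ _
          _ ≤ ∑ i, W * (1 / n ^ 2) * |E i - c| := by
              apply Finset.sum_le_sum
              intro i _
              rw [abs_mul, abs_mul, ← mul_assoc]
              apply mul_le_mul_of_nonneg_right _ (abs_nonneg _)
              exact mul_le_mul (hgW j i) (hthb i) (abs_nonneg _) (by linarith)
          _ = W * Sg / n ^ 2 := by rw [← Finset.mul_sum]; ring
      rw [e]
      calc |(1 + μ j / n) * γ + (SS w E - c) / n + ∑ i, g j i * (th i * (E i - c))|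
          ≤ |(1 + μ j / n) * γ| + |(SS w E - c) / n| + |∑ i, g j i * (th i * (E i - c))| :=
            abs_add_three _ _ _
        _ ≤ (1 - 1 / n) * |γ| + |SS w E - c| / n + W * Sg / n ^ 2 := by
            have h6 : |(1 + μ j / n) * γ| ≤ (1 - 1 / n) * |γ| := by
              rw [abs_mul, abs_of_nonneg h3]
              exact mul_le_mul_of_nonneg_right h4 (abs_nonneg _)
            have h7 : |(SS w E - c) / (n:ℝ)| = |SS w E - c| / n := by
              rw [abs_div, abs_of_pos hn0]
            rw [h7]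
            linarith
    have hsum : GG g E1 ≤ ∑ j : Fin m, ((1 - 1 / n) * |∑ i, g j i * E i|
        + |SS w E - c| / n + W * Sg / n ^ 2) := Finset.sum_le_sum fun j _ => hj j
    rw [Finset.sum_add_distrib, Finset.sum_add_distrib, ← Finset.mul_sum] at hsum
    simp only [Finset.sum_const, Finset.card_univ, Fintype.card_fin, nsmul_eq_mul] at hsum
    have h8 : (m:ℝ) * (|SS w E - c| / n) ≤ C * |SS w E - c| / n := by
      rw [← mul_div_assoc]
      apply div_le_div_of_nonneg_right _ hn0.le
      apply mul_le_mul_of_nonneg_right _ (abs_nonneg _)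
      have : 0 ≤ (m + 1) * W * (K + d) := by positivity
      linarith
    have h9 : (m:ℝ) * (W * Sg / n ^ 2) ≤ C * X / n ^ 2 := by
      rw [← mul_div_assoc]
      apply div_le_div_of_nonneg_right _ (by positivity)
      calc (m:ℝ) * (W * Sg) ≤ m * (W * ((K + d) * X)) := by gcongr
        _ = (m * W * (K + d)) * X := by ring
        _ ≤ C * X := by
            apply mul_le_mul_of_nonneg_right _ (by linarith)
            have h1 : (0:ℝ) ≤ m := by positivity
            have h2 : 0 ≤ W * (K + d) := by positivity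
            have h3 : (m + 1) * W * (K + d) = m * W * (K + d) + 1 * (W * (K + d)) := by ring
            linarith
    have h10 : (1 - 1 / (n:ℝ)) * ∑ j, |∑ i, g j i * E i| = (1 - 1 / n) * GG g E := rfl
    linarith

end Pool.Agent.KS6_23.AC
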