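import Pool.Agent.KS6_23.AC.Est

/-!
Every point is the sum of a convergent subseries.
-/

set_option autoImplicit false

open Finset Filter Topology

namespace Pool.Agent.KS6_23.AC

lemma greedy_sum {t : ℕ → ℝ} (h0 : ∀ l, 0 ≤ t l) {δ : ℝ} (hδ0 : 0 ≤ δ) (hδ : ∀ l, t l ≤ δ)
    (hns : ¬ Summable t) {b : ℝ} (hb : 0 ≤ b) : ∃ k, |b - ∑ l ∈ range k, t l| ≤ δ := by
  classical
  have h1 : Tendsto (fun n => ∑ l ∈ range n, t l) atTop atTop :=
    (not_summable_iff_tendsto_nat_atTop_of_nonneg h0).1 hns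
  have h2 : ∃ k, b ≤ ∑ l ∈ range k, t l := (h1.eventually_ge_atTop b).exists
  set k := Nat.find h2 with hk
  have h3 : b ≤ ∑ l ∈ range k, t l := Nat.find_spec h2
  refine ⟨k, ?_⟩
  rcases Nat.eq_zero_or_pos k with h | h
  · rw [h] at h3 ⊢
    simp only [range_zero, sum_empty] at h3 ⊢
    have : b = 0 := le_antisymm h3 hb
    rw [this]
    simpa using hδ0
  · have h4 : ¬ b ≤ ∑ l ∈ range (k - 1), t l := Nat.find_min h2 (by omega)
    push Not at h4
    have h5 : ∑ l ∈ range k, t l = ∑ l ∈ range (k - 1), t l + t (k - 1) := by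
      rw [← Finset.sum_range_succ, Nat.sub_add_cancel h]
    have h6 := hδ (k - 1)
    rw [abs_le]
    constructor <;> linarith

/-- approximation of a number by a finite subsum of the alternating harmonic series -/
lemma prelude (a : ℝ) {δ : ℝ} (hδ : 0 < δ) : ∃ F : Finset ℕ, (∀ n ∈ F, 1 ≤ n) ∧
    |a - ∑ n ∈ F, (-1 : ℝ) ^ n / (n : ℝ)| ≤ δ := by
  classical
  obtain ⟨M0, hM0⟩ := exists_nat_gt (1 / δ)
  set M : ℕ := M0 + 1 with hM
  have hM1 : (1:ℝ) ≤ M := by rw [hM]; push_cast; linarith [(Nat.cast_nonneg M0 : (0:ℝ) ≤ M0)]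
  have hMδ : 1 / (M:ℝ) ≤ δ := by
    rw [div_le_iff₀ (by linarith)]
    have h1 : 1 / δ < M := by rw [hM]; push_cast; linarith
    rw [div_lt_iff₀ hδ] at h1
    linarith
  have hns0 : ¬ Summable (fun l : ℕ => 1 / ((l + M : ℕ) : ℝ)) := by
    intro h
    exact Real.not_summable_one_div_natCast ((summable_nat_add_iff M).1 h)
  rcases le_total 0 a with ha | ha
  · have hns : ¬ Summable (fun l : ℕ => 1 / ((2 * (l + M) : ℕ) : ℝ)) := by
      intro h
      apply hns0
      have := h.mul_left 2
      refine this.congr fun l => ?_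
      push_cast
      have : (0:ℝ) < l + M := by positivity
      field_simp
    obtain ⟨k, hk⟩ := greedy_sum (t := fun l : ℕ => 1 / ((2 * (l + M) : ℕ) : ℝ))
      (fun l => by positivity) hδ.le (fun l => by
        refine le_trans ?_ hMδ
        apply one_div_le_one_div_of_le (by linarith)
        push_cast
        have : (0:ℝ) ≤ l := by positivity
        linarith) hns ha
    refine ⟨(range k).image fun l => 2 * (l + M), ?_, ?_⟩
    · intro n hn
      obtain ⟨l, -, rfl⟩ := Finset.mem_image.1 hn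
      omega
    · rw [Finset.sum_image (by intro x _ y _ h; simp only at h; omega)]
      have : ∑ l ∈ range k, (-1 : ℝ) ^ (2 * (l + M)) / ((2 * (l + M) : ℕ) : ℝ)
          = ∑ l ∈ range k, 1 / ((2 * (l + M) : ℕ) : ℝ) := by
        apply Finset.sum_congr rfl
        intro l _
        rw [pow_mul]; norm_num
      rw [this]
      exact hk
  · have hns : ¬ Summable (fun l : ℕ => 1 / ((2 * (l + M) + 1 : ℕ) : ℝ)) := by
      intro h
      apply hns0
      have h3 := h.mul_left 3
      refine Summable.of_nonneg_of_le (fun l => by positivity) (fun l => ?_) h3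
      push_cast
      have : (0:ℝ) ≤ l := by positivity
      have hp : (0:ℝ) < l + M := by linarith
      rw [mul_one_div, div_le_div_iff₀ hp (by linarith)]
      linarith
    obtain ⟨k, hk⟩ := greedy_sum (t := fun l : ℕ => 1 / ((2 * (l + M) + 1 : ℕ) : ℝ))
      (fun l => by positivity) hδ.le (fun l => by
        refine le_trans ?_ hMδ
        apply one_div_le_one_div_of_le (by linarith)
        push_cast
        have : (0:ℝ) ≤ l := by positivity
        linarith) hns (b := -a) (by linarith)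
    refine ⟨(range k).image fun l => 2 * (l + M) + 1, ?_, ?_⟩
    · intro n hn
      obtain ⟨l, -, rfl⟩ := Finset.mem_image.1 hn
      omega
    · rw [Finset.sum_image (by intro x _ y _ h; simp only at h; omega)]
      have : ∑ l ∈ range k, (-1 : ℝ) ^ (2 * (l + M) + 1) / ((2 * (l + M) + 1 : ℕ) : ℝ)
          = -∑ l ∈ range k, 1 / ((2 * (l + M) + 1 : ℕ) : ℝ) := by
        rw [← Finset.sum_neg_distrib]
        apply Finset.sum_congr rfl
        intro l _
        rw [pow_succ, pow_mul]; norm_num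
        ring
      rw [this]
      have e : a - -∑ l ∈ range k, 1 / ((2 * (l + M) + 1 : ℕ) : ℝ)
          = -(-a - ∑ l ∈ range k, 1 / ((2 * (l + M) + 1 : ℕ) : ℝ)) := by ring
      rw [e, abs_neg]
      exact hk

variable {d m : ℕ} {α w : Fin d → ℝ} {μ : Fin m → ℝ} {g : Fin m → Fin d → ℝ}

/-- the terms of the series -/
noncomputable def vv (α : Fin d → ℝ) (n : ℕ) : Fin d → ℝ := fun i => (-1) ^ n / (n : ℝ) ^ α i

/-- scaled variables -/
noncomputable def sc (α : Fin d → ℝ) (n : ℕ) (x : Fin d → ℝ) : Fin d → ℝ :=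
  fun i => (n : ℝ) ^ α i * x i

open Classical in
/-- the choice of the next coefficient -/
noncomputable def sel (α w : Fin d → ℝ) (n0 : ℕ) (F : Finset ℕ) (n : ℕ) (x : Fin d → ℝ) : ℝ :=
  if n < n0 then (if n ∈ F then 1 else 0)
  else if Even n then (if 0 < SS w (sc α n x) then 1 else 0)
  else (if SS w (sc α n x) < 0 then 1 else 0)

lemma sel_01 (α w : Fin d → ℝ) (n0 : ℕ) (F : Finset ℕ) (n : ℕ) (x : Fin d → ℝ) :
    sel α w n0 F n x = 0 ∨ sel α w n0 F n x = 1 := by
  unfold sel
  split_ifs <;> simp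

/-- the remainder -/
noncomputable def YY (α w : Fin d → ℝ) (n0 : ℕ) (F : Finset ℕ) (a : Fin d → ℝ) :
    ℕ → Fin d → ℝ
  | 0 => a
  | n + 1 => YY α w n0 F a n - sel α w n0 F n (YY α w n0 F a n) • vv α n

lemma init_small (w : Fin d → ℝ) (g : Fin m → Fin d → ℝ) (hα1 : ∀ i, α i ≤ 1) {δ : ℝ}
    (hδ : 0 < δ) : ∃ δ' : ℝ, 0 < δ' ∧ ∀ y : Fin d → ℝ, (∀ i, α i = 1 → |y i| ≤ δ') →
      ∀ᶠ n : ℕ in atTop, |SS w (sc α n y)| + GG g (sc α n y) ≤ δ * n := by
  set A : ℝ := 1 + ∑ i, |w i| + ∑ j, ∑ i, |g j i| with hA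
  have hsw : 0 ≤ ∑ i, |w i| := Finset.sum_nonneg fun _ _ => abs_nonneg _
  have hsg : 0 ≤ ∑ j, ∑ i, |g j i| :=
    Finset.sum_nonneg fun _ _ => Finset.sum_nonneg fun _ _ => abs_nonneg _
  have hA0 : 0 < A := by linarith
  refine ⟨δ / (A * (d + 1)), by positivity, fun y hy => ?_⟩
  set δ' : ℝ := δ / (A * (d + 1)) with hδ'
  have hδ'0 : 0 < δ' := by positivity
  have hev : ∀ i, ∀ᶠ n : ℕ in atTop, (n : ℝ) ^ α i * |y i| ≤ δ' * n := by
    intro i
    rcases eq_or_lt_of_le (hα1 i) with h | h
    · filter_upwards with n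
      rw [h, Real.rpow_one, mul_comm]
      exact mul_le_mul_of_nonneg_right (hy i h) (by positivity)
    · have h1 : Tendsto (fun n : ℕ => ((n : ℝ) ^ (-(1 - α i))) * |y i|) atTop (𝓝 (0 * |y i|)) := by
        apply Tendsto.mul_const
        exact (tendsto_rpow_neg_atTop (by linarith)).comp tendsto_natCast_atTop_atTop
      rw [zero_mul] at h1
      filter_upwards [h1.eventually (ge_mem_nhds hδ'0), eventually_gt_atTop 0] with n hn hn0
      have hnr : (0:ℝ) < n := by exact_mod_cast hn0
      have e : (n : ℝ) ^ α i = (n : ℝ) ^ (-(1 - α i)) * n := by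
        conv_rhs => rw [← Real.rpow_one (n:ℝ), ← Real.rpow_mul hnr.le, one_mul,
          ← Real.rpow_add hnr]
        congr 1
        ring
      rw [e]
      nlinarith
  have hall : ∀ᶠ n : ℕ in atTop, ∀ i, (n : ℝ) ^ α i * |y i| ≤ δ' * n :=
    eventually_all.2 hev
  filter_upwards [hall] with n hn
  have hE : ∀ i, |sc α n y i| ≤ δ' * n := by
    intro i
    rw [sc, abs_mul, abs_of_nonneg (Real.rpow_nonneg (by positivity) _)]
    exact hn i
  have h1 : |SS w (sc α n y)| ≤ (∑ i, |w i|) * (δ' * n) := by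
    rw [SS, Finset.sum_mul]
    refine (Finset.abs_sum_le_sum_abs _ _).trans (Finset.sum_le_sum fun i _ => ?_)
    rw [abs_mul]
    exact mul_le_mul_of_nonneg_left (hE i) (abs_nonneg _)
  have h2 : GG g (sc α n y) ≤ (∑ j, ∑ i, |g j i|) * (δ' * n) := by
    rw [GG, Finset.sum_mul]
    apply Finset.sum_le_sum
    intro j _
    rw [Finset.sum_mul]
    refine (Finset.abs_sum_le_sum_abs _ _).trans (Finset.sum_le_sum fun i _ => ?_)
    rw [abs_mul]
    exact mul_le_mul_of_nonneg_left (hE i) (abs_nonneg _)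
  have h3 : A * (δ' * n) ≤ δ * n := by
    have : A * δ' ≤ δ := by
      rw [hδ', mul_div_assoc', div_le_iff₀ (by positivity)]
      have hd : (0:ℝ) ≤ d := by positivity
      have : 0 ≤ δ * A * d := by positivity
      nlinarith
    nlinarith [(Nat.cast_nonneg n : (0:ℝ) ≤ n)]
  have h4 : 0 ≤ δ' * (n:ℝ) := by positivity
  have h5 : A * (δ' * n) = δ' * n + (∑ i, |w i|) * (δ' * n) + (∑ j, ∑ i, |g j i|) * (δ' * n) := by
    rw [hA]; ring
  linarith

/-- **Every point is the sum of a convergent subseries.** -/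
theorem reach (hd : 0 < d) (hinj : Function.Injective α) (hα0 : ∀ i, 0 < α i)
    (hα1 : ∀ i, α i ≤ 1) (a : Fin d → ℝ) : ∃ ε : ℕ → ℝ, (∀ n, ε n = 0 ∨ ε n = 1) ∧
      Tendsto (fun N => ∑ n ∈ Finset.Icc 1 N, ε n • vv α n) atTop (𝓝 a) := by
  classical
  obtain ⟨m, w, μ, g, hctl⟩ := exists_ctl hd hinj hα0
  obtain ⟨C, hC1, N1, hstep⟩ := step_est hctl hα0 hα1
  obtain ⟨δ, hδ, N2, hdyn⟩ := dyn hC1
  obtain ⟨K, hK, hKE⟩ := exists_K hctl
  obtain ⟨δ', hδ', hinit⟩ := init_small w g hα1 hδ
  -- prelude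
  obtain ⟨F, hF1, hF⟩ : ∃ F : Finset ℕ, (∀ n ∈ F, 1 ≤ n) ∧
      ∀ i, α i = 1 → |(a - ∑ n ∈ F, vv α n) i| ≤ δ' := by
    by_cases h : ∃ i0, α i0 = 1
    · obtain ⟨i0, hi0⟩ := h
      obtain ⟨F, hF1, hF⟩ := prelude (a i0) hδ'
      refine ⟨F, hF1, fun i hi => ?_⟩
      have : i = i0 := hinj (by rw [hi, hi0])
      rw [this, Pi.sub_apply, Finset.sum_apply]
      have e : ∑ n ∈ F, vv α n i0 = ∑ n ∈ F, (-1 : ℝ) ^ n / (n : ℝ) := by
        apply Finset.sum_congr rfl
        intro n _
        rw [vv, hi0, Real.rpow_one]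
      rw [e]
      exact hF
    · exact ⟨∅, by simp, fun i hi => absurd ⟨i, hi⟩ h⟩
  set y : Fin d → ℝ := a - ∑ n ∈ F, vv α n with hy
  have hev := hinit y hF
  obtain ⟨N3, hN3⟩ := eventually_atTop.1 hev
  set n0 : ℕ := 2 * (N1 + N2 + N3 + F.sup id + 1) with hn0
  have hn0e : Even n0 := even_two_mul _
  have hn0F : ∀ n ∈ F, n < n0 := by
    intro n hn
    have : n ≤ F.sup id := Finset.le_sup (f := id) hn
    omega
  set Y : ℕ → Fin d → ℝ := YY α w n0 F a with hY
  set ε : ℕ → ℝ := fun n => sel α w n0 F n (Y n) with hε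
  have hYs : ∀ n, Y (n + 1) = Y n - ε n • vv α n := fun n => rfl
  have hY0 : Y 0 = a := rfl
  have hε0 : ε 0 = 0 := by
    simp only [hε, sel]
    rw [if_pos (by omega), if_neg]
    intro h
    have := hF1 0 h
    omega
  -- partial sums
  have hpart : ∀ N, ∑ n ∈ Finset.Icc 1 N, ε n • vv α n = a - Y (N + 1) := by
    intro N
    induction N with
    | zero =>
      rw [hYs, hε0, hY0]
      simp
    | succ N ih =>
      rw [Finset.sum_Icc_succ_top (by omega), ih, hYs (N + 1)]
      abel
  -- the prelude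
  have hpre : ∀ n, n ≤ n0 → Y n = a - ∑ k ∈ F.filter (· < n), vv α k := by
    intro n
    induction n with
    | zero => intro _; rw [hY0]; simp
    | succ n ih =>
      intro hn
      rw [hYs, ih (by omega)]
      have hε1 : ε n = if n ∈ F then 1 else 0 := by
        simp only [hε, sel]
        rw [if_pos (by omega)]
      have hfil : F.filter (· < n + 1) = F.filter (· < n) ∪ (if n ∈ F then {n} else ∅) := by
        ext k
        by_cases hk : n ∈ F
        · simp only [Finset.mem_filter, Finset.mem_union, if_pos hk, Finset.mem_singleton]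
          constructor
          · rintro ⟨h1, h2⟩
            by_cases h3 : k = n
            · right; exact h3
            · left; exact ⟨h1, by omega⟩
          · rintro (⟨h1, h2⟩ | h1)
            · exact ⟨h1, by omega⟩
            · rw [h1]; exact ⟨hk, by omega⟩
        · simp only [Finset.mem_filter, Finset.mem_union, if_neg hk, Finset.notMem_empty, or_false]
          constructor
          · rintro ⟨h1, h2⟩
            refine ⟨h1, ?_⟩
            by_contra h3
            have : k = n := by omega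
            exact hk (this ▸ h1)
          · rintro ⟨h1, h2⟩
            exact ⟨h1, by omega⟩
      have hdis : Disjoint (F.filter (· < n)) (if n ∈ F then {n} else ∅) := by
        split_ifs
        · rw [Finset.disjoint_singleton_right, Finset.mem_filter]
          intro h; omega
        · exact Finset.disjoint_empty_right _
      rw [hfil, Finset.sum_union hdis, hε1]
      split_ifs
      · rw [Finset.sum_singleton, one_smul]; abel
      · rw [Finset.sum_empty, zero_smul]; abel
  have hYn0 : Y n0 = y := by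
    rw [hpre n0 le_rfl, hy]
    congr 2
    apply Finset.filter_true_of_mem
    intro n hn
    exact hn0F n hn
  -- dynamics
  set S : ℕ → ℝ := fun n => SS w (sc α n (Y n)) with hS
  set c : ℕ → ℝ := fun n => ε n * (-1) ^ n with hc
  set T : ℕ → ℝ := fun n => S n - c n with hT
  set G : ℕ → ℝ := fun n => GG g (sc α n (Y n)) with hG
  have hcle : ∀ n, |c n| ≤ 1 := by
    intro n
    simp only [hc]
    rw [abs_mul, abs_pow, abs_neg, abs_one, one_pow, mul_one]
    rcases sel_01 α w n0 F n (Y n) with h | h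
    · simp only [hε]; rw [h]; simp
    · simp only [hε]; rw [h]; simp
  have hEn : ∀ n : ℕ, 1 ≤ n → ∀ i, sc α (n + 1) (Y (n + 1)) i
      = (1 + 1 / (n:ℝ)) ^ α i * (sc α n (Y n) i - c n) := by
    intro n hn i
    have hnr : (0:ℝ) < n := by exact_mod_cast hn
    have h1 : (((n + 1 : ℕ)) : ℝ) ^ α i = (1 + 1 / (n:ℝ)) ^ α i * (n:ℝ) ^ α i := by
      rw [← Real.mul_rpow (by positivity) hnr.le]
      congr 1
      push_cast
      field_simp
    have h2 : 0 < (n:ℝ) ^ α i := Real.rpow_pos_of_pos hnr _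
    simp only [sc]
    rw [h1, hYs]
    simp only [Pi.sub_apply, Pi.smul_apply, smul_eq_mul, vv, hc]
    field_simp
  have hres := hdyn n0 (by omega) hn0e S T G (fun n => GG_nonneg _ _) ?_ ?_ ?_ ?_ ?_
  rotate_left
  · intro n hn he
    have hε1 : ε n = if 0 < S n then 1 else 0 := by
      simp only [hε, sel, hS]
      rw [if_neg (by omega), if_pos he]
    constructor
    · intro h
      simp only [hT, hc]
      rw [hε1, if_pos h, he.neg_one_pow, one_mul]
    · intro h
      simp only [hT, hc]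
      rw [hε1, if_neg h, zero_mul, sub_zero]
  · intro n hn he
    have hε1 : ε n = if S n < 0 then 1 else 0 := by
      simp only [hε, sel, hS]
      rw [if_neg (by omega), if_neg he]
    constructor
    · intro h
      simp only [hT, hc]
      rw [hε1, if_pos h, (Nat.not_even_iff_odd.1 he).neg_one_pow, one_mul]
      ring
    · intro h
      simp only [hT, hc]
      rw [hε1, if_neg h, zero_mul, sub_zero]
  · intro n hn
    exact (hstep n (by omega) (sc α n (Y n)) (c n) (hcle n) _ (hEn n (by omega))).1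
  · intro n hn
    exact (hstep n (by omega) (sc α n (Y n)) (c n) (hcle n) _ (hEn n (by omega))).2
  · simp only [hS, hG]
    rw [hYn0]
    exact hN3 n0 (by omega)
  obtain ⟨B, hB⟩ := hres
  refine ⟨ε, fun n => sel_01 α w n0 F n (Y n), ?_⟩
  have hlim : Tendsto Y atTop (𝓝 0) := by
    rw [tendsto_pi_nhds]
    intro i
    have h1 : Tendsto (fun n : ℕ => (K * (B + B)) * (n : ℝ) ^ (-α i)) atTop
        (𝓝 ((K * (B + B)) * 0)) := by
      apply Tendsto.const_mul
      exact (tendsto_rpow_neg_atTop (hα0 i)).comp tendsto_natCast_atTop_atTop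
    rw [mul_zero] at h1
    apply squeeze_zero_norm' _ h1
    filter_upwards [eventually_ge_atTop n0] with n hn
    have hnr : (0:ℝ) < n := by
      have : 0 < n := by omega
      exact_mod_cast this
    have h2 := hB n hn
    have h3 := hKE (sc α n (Y n))
    have h4 : |sc α n (Y n) i| ≤ K * (B + B) := by
      have h5 : |sc α n (Y n) i| ≤ ∑ i, |sc α n (Y n) i| :=
        Finset.single_le_sum (f := fun i => |sc α n (Y n) i|) (fun _ _ => abs_nonneg _)
          (Finset.mem_univ i)
      have h6 : K * (|SS w (sc α n (Y n))| + GG g (sc α n (Y n))) ≤ K * (B + B) :=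
        mul_le_mul_of_nonneg_left (add_le_add h2.1 h2.2) hK.le
      linarith
    have h7 : 0 < (n:ℝ) ^ α i := Real.rpow_pos_of_pos hnr _
    rw [Real.norm_eq_abs, Real.rpow_neg hnr.le, ← div_eq_mul_inv, le_div_iff₀ h7]
    rw [sc, abs_mul, abs_of_pos h7] at h4
    linarith
  have h8 : Tendsto (fun N => a - Y (N + 1)) atTop (𝓝 (a - 0)) :=
    ((hlim.comp (tendsto_add_atTop_nat 1)).const_sub a)
  rw [sub_zero] at h8
  exact h8.congr fun N => (hpart N).symm

end Pool.Agent.KS6_23.AC
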